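import Pool.Agent.Lib.H26b.Final

open Filter Topology

namespace Pool.Agent.Results.MP_6db049_an.SharedValues

open Pool.Agent.H26b

/-- Let `f` be a meromorphic function on `ℂ` of infinite hyper-order, or more generally any
meromorphic function that is not of the form `a z + b`, and let `c ≠ 0` and `a₁ ≠ a₂`. If `f'` and
`Δ_c f` share `a₁`, `a₂` and `∞` counting multiplicities, then `f' = Δ_c f` (as meromorphic
functions, that is, off a discrete set). -/
theorem result (f : ℂ → ℂ) (hf : Meromorphic f) (c a₁ a₂ : ℂ) (_hc : c ≠ 0) (ha : a₁ ≠ a₂)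
    (hord : hyperOrder f = ⊤ ∨ ¬ ∃ a b : ℂ, f =ᶠ[codiscrete ℂ] fun z => a * z + b)
    (h₁ : ShareCM (deriv f) (shiftDiff c f) a₁) (h₂ : ShareCM (deriv f) (shiftDiff c f) a₂)
    (hinf : ShareInftyCM (deriv f) (shiftDiff c f)) :
    deriv f =ᶠ[codiscrete ℂ] shiftDiff c f :=
  main hf c a₁ a₂ ha hord h₁ h₂ hinf

end Pool.Agent.Results.MP_6db049_an.SharedValues
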